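import Mathlib

set_option autoImplicit false

/-! Project ISO (helper354, MP_cc188c_al): an isomorphism invariant of all Artin groups. For a prime
`p` the graphs on the classes of generators (connected by odd labels), with an edge between
`C ≠ D` if some label `2 k` between them is finite and `p ^ e` does not divide `k`, are invariants
(with one bijection of the classes for all `e`). -/

namespace Pool.Agent.H354.ISO

/-- the cup product of `α` and `β` vanishes -/
def perp {F ι : Type} [Field F] (R : ι → ι → Prop) (α β : ι → F) : Prop :=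
  ∀ u w, R u w → α u * β w = α w * β u

/-- the space of all `β` with `perp R α β` -/
def P {F ι : Type} [Field F] (R : ι → ι → Prop) (α : ι → F) : Submodule F (ι → F) where
  carrier := {β | perp R α β}
  add_mem' := by
    intro a b ha hb u w h
    have h1 := ha u w h
    have h2 := hb u w h
    simp only [Pi.add_apply]
    linear_combination h1 + h2
  zero_mem' := by intro u w _; simp
  smul_mem' := by
    intro c a ha u w h
    have h1 := ha u w h
    simp only [Pi.smul_apply, smul_eq_mul]
    linear_combination c * h1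

/-- `w` is dominated by `v` -/
def dom {ι : Type} (R : ι → ι → Prop) (w v : ι) : Prop := ∀ x, R w x → x = v ∨ R v x

/-- REC1. Let `α v ≠ 0`. Then `finrank (P R α) ≤ finrank (P R (Pi.single v 1))`, with equality iff
all `w` in the support of `α` are dominated by `v`.
Proof. `P R (single v)` is the set of the `β` which vanish on the neighbours of `v`. Let `Q` be the
subspace of those with moreover `β v = 0`; `single v ∈ P R (single v)`, so
`finrank (P R (single v)) = finrank Q + 1`. The linear map `β ↦ β - (β v / α v) • α` sends `P R α`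
to `Q` (for `R v w`: `α v * β w = α w * β v`), its kernel on `P R α` is the line of `α ∈ P R α`; so
`finrank (P R α) = finrank (image) + 1 ≤ finrank Q + 1`, and equality holds iff the image is `Q`. If
the image is `Q` then `Q ≤ P R α` (`α ∈ P R α`), so for `u ∉ {v} ∪ N(v)` we have
`single u ∈ Q ≤ P R α`, i.e. `α` vanishes on the neighbours of `u`; this is the domination of all
`w` of the support (`R` is symmetric). Conversely if all `w` of the support are dominated by `v`
then `Q ≤ P R α` (if `β` vanishes on `v` and the neighbours of `v`: for `R u w`, `α u * β w ≠ 0`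
is impossible since `u` is dominated by `v`, so `w = v` or `R v w`, `β w = 0`; same for
`α w * β u`), and the map is the identity on `Q`, so the image is `Q`. (It may be easier to prove
the two inequalities of dimensions with `LinearMap.finrank_le_finrank_of_injective` from the maps
`P R α → Q × F`, `β ↦ (β - (β v / α v) • α, β v)` and `Q × F → P R α`, `(γ, c) ↦ γ + c • α`, and
`Q × F ≃ P R (single v)`, `(γ, c) ↦ γ + c • single v`.) -/
def S_REC1 : Prop := ∀ (F : Type) [Field F] (ι : Type) [Fintype ι] [DecidableEq ι]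
  (R : ι → ι → Prop), (∀ u v, R u v → R v u) → (∀ u, ¬ R u u) →
  ∀ (α : ι → F) (v : ι), α v ≠ 0 →
  Module.finrank F (P R α) ≤ Module.finrank F (P R (Pi.single v 1 : ι → F)) ∧
  (Module.finrank F (P R α) = Module.finrank F (P R (Pi.single v 1 : ι → F)) ↔
    ∀ w, α w ≠ 0 → dom R w v)

/-- REC2. The graphs are determined by the relations `perp`.
Proof from REC1. Put `D α = ∑ j, finrank (P (G j) α)`, `r v = D (single v)`, similarly `D'`, `r'`
for `H`; `T` maps `P (G j) α` onto `P (H j) (T α)`, so `D' (T α) = D α`. If `α v ≠ 0` then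
`D α ≤ r v` (REC1) with equality iff all `w` in the support are dominated by `v` in all `G j`
(write `w ≤ v`). Choose `σ : ι ≃ κ` with `T (single v) (σ v) ≠ 0` for all `v` (the determinant of
the matrix of `T` is not zero, `Matrix.det_apply`; the cardinalities agree since
`finrank (ι → F) = card ι`). Then `r v = D' (T (single v)) ≤ r' (σ v)`. So `∑ r ≤ ∑ r'`, and by
symmetry (`T.symm`) `∑ r' ≤ ∑ r`, so `r v = r' (σ v)` for all `v`, and by the equality case all
`w` in the support of `T (single v)` satisfy `w ≤ σ v`.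
If `w ≤ a`, `w ≠ a` (in `κ`) then with `α = single w + single a` the equality case at `a` gives
`D' α = r' a` (`a ≤ a` always), and at `w`: `r' a ≤ r' w` with equality iff `a ≤ w`.
Let `F k` be the functions supported on `{v | k ≤ r v}`, `F' k` similarly. `T` maps `F k` to
`F' k` (if `w` is in the support of `T (single v)` then `r v = D' (T (single v)) ≤ r' w`), and
`T.symm` maps `F' k` to `F k`.
Claim: `u ≠ v`, `¬ G j u v` implies `¬ H j (σ u) (σ v)`. Let `α = T (single u)`,
`β = T (single v)`, `a = σ u`, `b = σ v`; `perp (G j) (single u) (single v)`, so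
`perp (H j) α β`. Suppose `H j a b`. `α a * β b = α b * β a` and `α a, β b ≠ 0`, so `α b ≠ 0`,
`β a ≠ 0`; so `b ≤ a` and `a ≤ b`. Let `c = β a / α a`, `γ = β - c • α = T (single v - c • single
u)`, `c ≠ 0`. I claim that `γ w = 0` for every `w` with `w ≤ a` and `a ≤ w`: if `w = a` clear;
otherwise `w` and `a` are adjacent in `H j`: (`b` is adjacent to `a`; if `w = b` clear; else
`a ≤ w` in `H j`: `H j a b` gives `b = w ∨ H j w b`, so `H j w b`, i.e. `H j b w`, and `b ≤ a`
gives `w = a ∨ H j a w`.) So `α a * β w = α w * β a`, i.e. `γ w = 0`. All `w` in the support of `γ` satisfy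
`w ≤ a` (for `α`) or `w ≤ b ≤ a` (for `β`; domination is transitive), and not `a ≤ w`, so
`r' w > r' a =: k`, i.e. `γ ∈ F' (k + 1)`. So `single v - c • single u ∈ F (k + 1)`; but
`r v = r' b = r' a = k` (`a ≤ b ≤ a`), contradiction at the coordinate `v`.
So `σ` maps pairs of different non-adjacent elements to such pairs. The same for `T.symm` with its
own bijection shows that the numbers of such pairs for `G j` and `H j` are equal, so `σ × σ` is a
bijection between them, and `G j u v ↔ H j (σ u) (σ v)` (for `u = v` both are false). -/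
def S_REC : Prop := ∀ (F : Type) [Field F] (ι κ J : Type) [Fintype ι] [DecidableEq ι]
  [Fintype κ] [DecidableEq κ] [Fintype J] (G : J → ι → ι → Prop) (H : J → κ → κ → Prop),
  (∀ j u v, G j u v → G j v u) → (∀ j u, ¬ G j u u) →
  (∀ j u v, H j u v → H j v u) → (∀ j u, ¬ H j u u) →
  ∀ T : (ι → F) ≃ₗ[F] (κ → F), (∀ j α β, perp (G j) α β ↔ perp (H j) (T α) (T β)) →
  ∃ σ : ι ≃ κ, ∀ j u v, G j u v ↔ H j (σ u) (σ v)

/-- The Artin group on `Fin n` with labels `m` (`0` stands for infinity). -/
abbrev Artin {n : ℕ} (m : Fin n → Fin n → ℕ) : Type :=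
  PresentedGroup
    {r : FreeGroup (Fin n) | ∃ i j : Fin n, m i j ≠ 0 ∧
      r = ((CoxeterSystem.alternatingWord i j (m i j)).map FreeGroup.of).prod *
        (((CoxeterSystem.alternatingWord j i (m i j)).map FreeGroup.of).prod)⁻¹}

/-- the classes of generators connected by odd labels -/
def OddClass {n : ℕ} (m : Fin n → Fin n → ℕ) : Type := Quot (fun i j : Fin n => Odd (m i j))

/-- the class of a generator -/
def cl {n : ℕ} (m : Fin n → Fin n → ℕ) (s : Fin n) : OddClass m := Quot.mk _ s

/-- some label `2 k` between the different classes `C`, `D` is finite with `q ∤ k` -/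
def ValEdge {n : ℕ} (m : Fin n → Fin n → ℕ) (q : ℕ) (C D : OddClass m) : Prop :=
  C ≠ D ∧ ∃ s t, cl m s = C ∧ cl m t = D ∧ m s t ≠ 0 ∧ ¬ q ∣ m s t / 2

/-- the Heisenberg group -/
@[ext] structure Heis (R : Type) where
  x : R
  y : R
  z : R

instance (R : Type) [CommRing R] : Mul (Heis R) :=
  ⟨fun a b => ⟨a.x + b.x, a.y + b.y, a.z + b.z + a.x * b.y⟩⟩
instance (R : Type) [CommRing R] : One (Heis R) := ⟨⟨0, 0, 0⟩⟩
instance (R : Type) [CommRing R] : Inv (Heis R) :=
  ⟨fun a => ⟨-a.x, -a.y, -a.z + a.x * a.y⟩⟩

instance (R : Type) [CommRing R] : Group (Heis R) :=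
  Group.ofLeftAxioms
    (fun a b c => by
      refine Heis.ext ?_ ?_ ?_
      · show a.x + b.x + c.x = a.x + (b.x + c.x); ring
      · show a.y + b.y + c.y = a.y + (b.y + c.y); ring
      · show a.z + b.z + a.x * b.y + c.z + (a.x + b.x) * c.y =
          a.z + (b.z + c.z + b.x * c.y) + a.x * (b.y + c.y); ring)
    (fun a => by
      refine Heis.ext ?_ ?_ ?_
      · show 0 + a.x = a.x; ring
      · show 0 + a.y = a.y; ring
      · show 0 + a.z + 0 * a.y = a.z; ring)
    (fun a => by
      refine Heis.ext ?_ ?_ ?_
      · show -a.x + a.x = 0; ring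
      · show -a.y + a.y = 0; ring
      · show -a.z + a.x * a.y + a.z + -a.x * a.y = 0; ring)

/-- HOM. Homomorphisms to the Heisenberg group.
Proof. (→) Let `g = Φ s`, `h = Φ t`. For an odd label the two alternating words have the
`x`-coordinates `(k + 1) x_s + k x_t` and `k x_s + (k + 1) x_t` (in some order), so `X s = X t`,
same for `Y` (easiest: for a homomorphism to a commutative group the alternating words of odd
length `2 k + 1` give `g ^ (k + 1) h ^ k = g ^ k h ^ (k + 1)`, so `g = h`). For a label `2 k`:
`(g h) ^ k = (h g) ^ k` and `g h = (h g) c` with the central `c = (0, 0, x_s y_t - x_t y_s)`, so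
`c ^ k = 1`, i.e. `k (x_s y_t - x_t y_s) = 0` (for `k = 0` nothing to prove). (←) put
`Φ s = (X s, Y s, 0)`; for odd labels `Φ s = Φ t` (both words are the same power), for even labels
reverse the computation (`CoxeterSystem.alternatingWord`, `PresentedGroup.toGroup`; `M s s = 1`
and `s = t` is a trivial relation). -/
def S_HOM : Prop := ∀ (n : ℕ) (M : CoxeterMatrix (Fin n)) (R : Type) [CommRing R]
  (X Y : Fin n → R),
  (∃ Φ : Artin (fun i j => M i j) →* Heis R, ∀ s,
    (Φ (PresentedGroup.of s)).x = X s ∧ (Φ (PresentedGroup.of s)).y = Y s) ↔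
  ((∀ s t, Odd (M s t) → X s = X t ∧ Y s = Y t) ∧
    ∀ (s t : Fin n) (k : ℕ), M s t = 2 * k → (k : R) * (X s * Y t - X t * Y s) = 0)

/-- LIFT. Lifts to `ZMod (p ^ e)`.
Proof. (←) Let `ValEdge C D` with `s, t`, `m s t = 2 k` (the label is even since `C ≠ D`), `k ≠ 0`,
`¬ p ^ e ∣ k`. From `k * δ = 0` in `ZMod (p ^ e)` with `δ = X s * Y t - X t * Y s` and
`¬ p ^ e ∣ k` it follows that `p` divides `δ`, i.e. the image of `δ` in `ZMod p` vanishes (if `δ`
is a unit then `k = 0` in `ZMod (p ^ e)`).
(→) Choose `τ : ZMod p → ZMod (p ^ e)` with `cast (τ a) = a` and `τ 0 = 0`, and define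
`L : ZMod p → ZMod p → ZMod (p ^ e) × ZMod (p ^ e)` by `L a b = (τ a, τ a * τ (b / a))` for
`a ≠ 0` and `L 0 b = (0, τ b)`. If `a b' = a' b` then `(L a b).1 * (L a' b').2 =
(L a' b').1 * (L a b).2` (cases: `a, a' ≠ 0`: then `b / a = b' / a'`; `a = 0`, `a' ≠ 0`: `b = 0`;
`a = a' = 0`: clear). Put `(X s, Y s) = L (α (cl s)) (β (cl s))`. For an odd label
`cl s = cl t` (`Quot.sound`). For `m s t = 2 k`: if `cl s = cl t` clear; if `k = 0` or
`p ^ e ∣ k` then `k = 0` in `ZMod (p ^ e)`; otherwise `ValEdge`. -/
def S_LIFT : Prop := ∀ (p e : ℕ) [Fact p.Prime] (he : e ≠ 0) (n : ℕ)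
  (m : Fin n → Fin n → ℕ) (α β : OddClass m → ZMod p),
  perp (ValEdge m (p ^ e)) α β ↔
  ∃ X Y : Fin n → ZMod (p ^ e),
    (∀ s, ZMod.castHom (dvd_pow_self p he) (ZMod p) (X s) = α (cl m s)) ∧
    (∀ s, ZMod.castHom (dvd_pow_self p he) (ZMod p) (Y s) = β (cl m s)) ∧
    (∀ s t, Odd (m s t) → X s = X t ∧ Y s = Y t) ∧
    ∀ (s t : Fin n) (k : ℕ), m s t = 2 * k →
      (k : ZMod (p ^ e)) * (X s * Y t - X t * Y s) = 0

/-- TRANS. An isomorphism of Artin groups gives a linear isomorphism of the functions on the odd
classes. Proof. For `α : OddClass → ZMod p` there is exactly one homomorphism `h_α` from the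
Artin group to `Multiplicative (ZMod p)` with `h_α (of s) = ofAdd (α (cl s))` (alternating words
of odd length `2 k + 1` give `a ^ (k + 1) b ^ k`, equal if `a = b`; of even length they are equal
in a commutative group), and every homomorphism `f` is `h_α` for
`α (cl s) = toAdd (f (of s))` (well defined on the classes, the odd relation gives
`f (of s) = f (of t)`). `T α` is the function of `h_α ∘ φ.symm`; additive maps between
`ZMod p`-modules are linear (`AddMonoidHom.toZModLinearMap`); the inverse is given by `φ`. -/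
def S_TRANS : Prop := ∀ (p : ℕ) [Fact p.Prime] (n n' : ℕ) (M : CoxeterMatrix (Fin n))
  (M' : CoxeterMatrix (Fin n'))
  (φ : Artin (fun i j => M i j) ≃* Artin (fun i j => M' i j)),
  ∃ T : (OddClass (fun i j => M i j) → ZMod p) ≃ₗ[ZMod p] (OddClass (fun i j => M' i j) → ZMod p),
    ∀ (α : OddClass (fun i j => M i j) → ZMod p)
      (f : Artin (fun i j => M i j) →* Multiplicative (ZMod p)),
      (∀ s, f (PresentedGroup.of s) = Multiplicative.ofAdd (α (cl _ s))) ↔
      (∀ s', f (φ.symm (PresentedGroup.of s')) = Multiplicative.ofAdd (T α (cl _ s')))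

end Pool.Agent.H354.ISO
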