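import Pool.Agent.H354.ISO.Defs

set_option autoImplicit false

/-! Project ISO (helper354), second part: the profinite version (MP_f6e909_al). -/

namespace Pool.Agent.H354.ISO

/-- a natural bijection between the homomorphisms from `A` and from `B` to finite groups -/
structure Transfer (A B : Type) [Group A] [Group B] where
  go : ∀ (Q : Type) [Group Q] [Finite Q], (A →* Q) → (B →* Q)
  ba : ∀ (Q : Type) [Group Q] [Finite Q], (B →* Q) → (A →* Q)
  go_ba : ∀ (Q : Type) [Group Q] [Finite Q] (f : B →* Q), go Q (ba Q f) = f
  ba_go : ∀ (Q : Type) [Group Q] [Finite Q] (f : A →* Q), ba Q (go Q f) = f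
  nat : ∀ (Q Q' : Type) [Group Q] [Finite Q] [Group Q'] [Finite Q'] (h : Q →* Q')
    (f : A →* Q), go Q' (h.comp f) = h.comp (go Q f)

/-- PROF. Proof. Give the finite group `Q` the discrete topology (`⊥`); it is a profinite group
(`ProfiniteGrp.ofFiniteGrp (FiniteGrp.of Q)`), and a homomorphism `f : A →* Q` extends uniquely to
a continuous homomorphism of the completion (`ProfiniteGrp.ProfiniteCompletion.lift`, `lift_eta`,
`lift_unique`); `go Q f` is the composition of `B → completion B` (`eta`), the inverse of the
given isomorphism and the extension of `f`. Naturality: `lift (f ≫ h) = lift f ≫ h` by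
`lift_unique`. `ba` is the same with the isomorphism. For `go_ba`: the extension of
`go Q (ba Q f)` … use `lift_unique`: the continuous homomorphism `(extension of ba Q f) ∘ e.symm`
restricts on `B` to `go Q (ba Q f)`; and `extension of ba Q f = (extension of f) ∘ e` since both
restrict to `ba Q f` on `A`. -/
def S_PROF : Prop := ∀ (A B : Type) [Group A] [Group B],
  Nonempty (ProfiniteGrp.ProfiniteCompletion.completion (GrpCat.of A) ≃ₜ*
    ProfiniteGrp.ProfiniteCompletion.completion (GrpCat.of B)) → Nonempty (Transfer A B)

/-- TRANSP. The same as `S_TRANS` for a transfer. Proof as there (a finished proof of `S_TRANS` is in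
the store, `helper874_ISO_TRANS.lean`): `T α` is the function of `τ.go _ h_α`. Additivity: for
`f, g : A →* Multiplicative (ZMod p)` one has `τ.go _ (f * g) = τ.go _ f * τ.go _ g`: apply `nat` to
`MonoidHom.prod f g : A →* Q × Q` and the homomorphisms `fst`, `snd` and multiplication
`Q × Q →* Q` (`Q` is commutative). -/
def S_TRANSP : Prop := ∀ (p : ℕ) [Fact p.Prime] (n n' : ℕ) (M : CoxeterMatrix (Fin n))
  (M' : CoxeterMatrix (Fin n'))
  (τ : Transfer (Artin (fun i j => M i j)) (Artin (fun i j => M' i j))),
  ∃ T : (OddClass (fun i j => M i j) → ZMod p) ≃ₗ[ZMod p] (OddClass (fun i j => M' i j) → ZMod p),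
    ∀ (α : OddClass (fun i j => M i j) → ZMod p)
      (f : Artin (fun i j => M i j) →* Multiplicative (ZMod p)),
      (∀ s, f (PresentedGroup.of s) = Multiplicative.ofAdd (α (cl _ s))) ↔
      (∀ s', τ.go _ f (PresentedGroup.of s') = Multiplicative.ofAdd (T α (cl _ s')))

end Pool.Agent.H354.ISO
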