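import Pool.Agent.H354.ISO.Defs

set_option autoImplicit false

/-! Project ISO (helper354): the final theorem from the parts. -/

namespace Pool.Agent.H354.ISO

/-- the first coordinate -/
def hx {R : Type} [CommRing R] {p : ℕ} (c : R →+* ZMod p) :
    Heis R →* Multiplicative (ZMod p) where
  toFun g := Multiplicative.ofAdd (c g.x)
  map_one' := by
    show Multiplicative.ofAdd (c 0) = 1
    rw [map_zero]; rfl
  map_mul' a b := by
    show Multiplicative.ofAdd (c (a.x + b.x)) = _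
    rw [map_add]; rfl

/-- the second coordinate -/
def hy {R : Type} [CommRing R] {p : ℕ} (c : R →+* ZMod p) :
    Heis R →* Multiplicative (ZMod p) where
  toFun g := Multiplicative.ofAdd (c g.y)
  map_one' := by
    show Multiplicative.ofAdd (c 0) = 1
    rw [map_zero]; rfl
  map_mul' a b := by
    show Multiplicative.ofAdd (c (a.y + b.y)) = _
    rw [map_add]; rfl

lemma char (hH : S_HOM) (hL : S_LIFT) (p e : ℕ) [Fact p.Prime] (he : e ≠ 0) (n : ℕ)
    (M : CoxeterMatrix (Fin n)) (α β : OddClass (fun i j => M i j) → ZMod p) :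
    perp (ValEdge (fun i j => M i j) (p ^ e)) α β ↔
    ∃ Φ : Artin (fun i j => M i j) →* Heis (ZMod (p ^ e)),
      (∀ s, ZMod.castHom (dvd_pow_self p he) (ZMod p) (Φ (PresentedGroup.of s)).x =
        α (cl _ s)) ∧
      (∀ s, ZMod.castHom (dvd_pow_self p he) (ZMod p) (Φ (PresentedGroup.of s)).y =
        β (cl _ s)) := by
  rw [hL p e he n _ α β]
  constructor
  · rintro ⟨X, Y, h1, h2, h3, h4⟩
    obtain ⟨Φ, hΦ⟩ := (hH n M _ X Y).mpr ⟨h3, h4⟩
    exact ⟨Φ, fun s => by rw [(hΦ s).1]; exact h1 s, fun s => by rw [(hΦ s).2]; exact h2 s⟩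
  · rintro ⟨Φ, h1, h2⟩
    obtain ⟨h3, h4⟩ := (hH n M _ (fun s => (Φ (PresentedGroup.of s)).x)
      (fun s => (Φ (PresentedGroup.of s)).y)).mp ⟨Φ, fun s => ⟨rfl, rfl⟩⟩
    exact ⟨_, _, h1, h2, h3, h4⟩

lemma transport (hH : S_HOM) (hL : S_LIFT) (p e : ℕ) [Fact p.Prime] (he : e ≠ 0) (n n' : ℕ)
    (M : CoxeterMatrix (Fin n)) (M' : CoxeterMatrix (Fin n'))
    (φ : Artin (fun i j => M i j) ≃* Artin (fun i j => M' i j))
    (T : (OddClass (fun i j => M i j) → ZMod p) ≃ₗ[ZMod p]
      (OddClass (fun i j => M' i j) → ZMod p))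
    (hT : ∀ (α : OddClass (fun i j => M i j) → ZMod p)
      (f : Artin (fun i j => M i j) →* Multiplicative (ZMod p)),
      (∀ s, f (PresentedGroup.of s) = Multiplicative.ofAdd (α (cl _ s))) ↔
      (∀ s', f (φ.symm (PresentedGroup.of s')) = Multiplicative.ofAdd (T α (cl _ s'))))
    (α β : OddClass (fun i j => M i j) → ZMod p) :
    perp (ValEdge (fun i j => M i j) (p ^ e)) α β ↔
      perp (ValEdge (fun i j => M' i j) (p ^ e)) (T α) (T β) := by
  rw [char hH hL p e he n M, char hH hL p e he n' M']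
  set c := ZMod.castHom (dvd_pow_self p he) (ZMod p) with hc
  constructor
  · rintro ⟨Φ, h1, h2⟩
    refine ⟨Φ.comp φ.symm.toMonoidHom, ?_, ?_⟩
    · exact (hT α ((hx c).comp Φ)).mp h1
    · exact (hT β ((hy c).comp Φ)).mp h2
  · rintro ⟨Φ', h1, h2⟩
    refine ⟨Φ'.comp φ.toMonoidHom, ?_, ?_⟩
    · refine (hT α ((hx c).comp (Φ'.comp φ.toMonoidHom))).mpr fun s' => ?_
      show Multiplicative.ofAdd (c (Φ' (φ (φ.symm (PresentedGroup.of s')))).x) = _
      rw [MulEquiv.apply_symm_apply, h1 s']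
    · refine (hT β ((hy c).comp (Φ'.comp φ.toMonoidHom))).mpr fun s' => ?_
      show Multiplicative.ofAdd (c (Φ' (φ (φ.symm (PresentedGroup.of s')))).y) = _
      rw [MulEquiv.apply_symm_apply, h2 s']

lemma val_large {n : ℕ} (m : Fin n → Fin n → ℕ) (p : ℕ) (hp : p.Prime) (N : ℕ)
    (hN : ∀ i j, m i j ≤ N) (e : ℕ) (he : N + 1 ≤ e) (C D : OddClass m) :
    ValEdge m (p ^ e) C D ↔ ValEdge m (p ^ (N + 1)) C D := by
  have key : ∀ s t, ∀ e, N + 1 ≤ e → (p ^ e ∣ m s t / 2 ↔ m s t / 2 = 0) := by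
    intro s t e he
    constructor
    · intro h
      by_contra h0
      have h1 := Nat.le_of_dvd (Nat.pos_of_ne_zero h0) h
      have h2 : e < p ^ e := Nat.lt_pow_self hp.one_lt
      have h3 := hN s t
      omega
    · intro h; rw [h]; exact dvd_zero _
  unfold ValEdge
  refine and_congr_right fun _ => exists_congr fun s => exists_congr fun t => ?_
  rw [key s t e he, key s t (N + 1) le_rfl]

/-- the final theorem from the parts -/
theorem fin (h1 : S_REC1) (hR : S_REC1 → S_REC) (hH : S_HOM) (hL : S_LIFT) (hT : S_TRANS)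
    (n n' : ℕ) (M : CoxeterMatrix (Fin n)) (M' : CoxeterMatrix (Fin n'))
    (h : Nonempty (Artin (fun i j => M i j) ≃* Artin (fun i j => M' i j))) (p : ℕ)
    (hp : p.Prime) :
    ∃ σ : OddClass (fun i j => M i j) ≃ OddClass (fun i j => M' i j), ∀ (e : ℕ) C D,
      ValEdge (fun i j => M i j) (p ^ e) C D ↔
        ValEdge (fun i j => M' i j) (p ^ e) (σ C) (σ D) := by
  classical
  obtain ⟨φ⟩ := h
  have : Fact p.Prime := ⟨hp⟩
  obtain ⟨T, hT'⟩ := hT p n n' M M' φ
  have f1 : Finite (OddClass (fun i j => M i j)) :=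
    Finite.of_surjective (cl _) Quot.mk_surjective
  have f2 : Finite (OddClass (fun i j => M' i j)) :=
    Finite.of_surjective (cl _) Quot.mk_surjective
  have := Fintype.ofFinite (OddClass (fun i j => M i j))
  have := Fintype.ofFinite (OddClass (fun i j => M' i j))
  obtain ⟨N, hN, hN'⟩ : ∃ N : ℕ, (∀ i j, M i j ≤ N) ∧ ∀ i j, M' i j ≤ N := by
    refine ⟨(∑ i, ∑ j, M i j) + ∑ i, ∑ j, M' i j, fun i j => ?_, fun i j => ?_⟩
    · have h1 : M i j ≤ ∑ j, M i j := Finset.single_le_sum (f := fun j => M i j)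
        (fun _ _ => Nat.zero_le _) (Finset.mem_univ j)
      have h2 : ∑ j, M i j ≤ ∑ i, ∑ j, M i j := Finset.single_le_sum
        (f := fun i => ∑ j, M i j) (fun _ _ => Nat.zero_le _) (Finset.mem_univ i)
      omega
    · have h1 : M' i j ≤ ∑ j, M' i j := Finset.single_le_sum (f := fun j => M' i j)
        (fun _ _ => Nat.zero_le _) (Finset.mem_univ j)
      have h2 : ∑ j, M' i j ≤ ∑ i, ∑ j, M' i j := Finset.single_le_sum
        (f := fun i => ∑ j, M' i j) (fun _ _ => Nat.zero_le _) (Finset.mem_univ i)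
      omega
  have hsym : ∀ (k : ℕ) (K : CoxeterMatrix (Fin k)) (q : ℕ)
      (u v : OddClass (fun i j => K i j)),
      ValEdge (fun i j => K i j) q u v → ValEdge (fun i j => K i j) q v u := by
    rintro k K q u v ⟨h1, s, t, h2, h3, h4, h5⟩
    refine ⟨h1.symm, t, s, h3, h2, ?_, ?_⟩
    · show K t s ≠ 0
      rw [K.symmetric]; exact h4
    · show ¬ q ∣ K t s / 2
      rw [K.symmetric]; exact h5
  obtain ⟨σ, hσ⟩ := hR h1 (ZMod p) (OddClass (fun i j => M i j))
    (OddClass (fun i j => M' i j)) (Fin (N + 1))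
    (fun j => ValEdge (fun i j => M i j) (p ^ (j.val + 1)))
    (fun j => ValEdge (fun i j => M' i j) (p ^ (j.val + 1)))
    (fun j u v => hsym n M _ u v) (fun j u hu => hu.1 rfl)
    (fun j u v => hsym n' M' _ u v) (fun j u hu => hu.1 rfl) T
    (fun j α β => transport hH hL p (j.val + 1) (Nat.succ_ne_zero _) n n' M M' φ T hT' α β)
  refine ⟨σ, fun e C D => ?_⟩
  rcases Nat.eq_zero_or_pos e with rfl | he
  · constructor
    · rintro ⟨-, s, t, -, -, -, h5⟩
      exact absurd (by rw [pow_zero]; exact one_dvd _) h5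
    · rintro ⟨-, s, t, -, -, -, h5⟩
      exact absurd (by rw [pow_zero]; exact one_dvd _) h5
  · rcases Nat.lt_or_ge e (N + 1) with h3 | h3
    · have := hσ ⟨e - 1, by omega⟩ C D
      simpa only [Nat.sub_add_cancel he] using this
    · rw [val_large _ p hp N hN e h3, val_large _ p hp N hN' e h3]
      exact hσ ⟨N, by omega⟩ C D

lemma cl_bij {n : ℕ} (M : CoxeterMatrix (Fin n)) (hM : ∀ i j, i ≠ j → Even (M i j)) :
    Function.Bijective (cl (fun i j => M i j)) := by
  refine ⟨fun i j h => ?_, Quot.mk_surjective⟩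
  have h1 : Relation.EqvGen (fun i j : Fin n => Odd (M i j)) i j := Quot.eqvGen_exact h
  clear h
  induction h1 with
  | rel i j h =>
    by_contra hij
    exact (Nat.not_odd_iff_even.mpr (hM i j hij)) h
  | refl i => rfl
  | symm i j _ ih => exact ih.symm
  | trans i j k _ _ ih1 ih2 => exact ih1.trans ih2

/-- even Artin groups -/
theorem rigid (n n' : ℕ) (M : CoxeterMatrix (Fin n)) (M' : CoxeterMatrix (Fin n'))
    (p : ℕ) (hp : p.Prime) (hM : ∀ i j, i ≠ j → Even (M i j)) (hM' : ∀ i j, i ≠ j → Even (M' i j))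
    (hL : ∀ i j k l, i ≠ j → k ≠ l → M i j ≠ 0 → M' k l ≠ 0 →
      padicValNat p (M i j) = padicValNat p (M' k l) → M i j = M' k l)
    (h : ∃ σ : OddClass (fun i j => M i j) ≃ OddClass (fun i j => M' i j), ∀ (e : ℕ) C D,
      ValEdge (fun i j => M i j) (p ^ e) C D ↔
        ValEdge (fun i j => M' i j) (p ^ e) (σ C) (σ D)) :
    ∃ τ : Fin n ≃ Fin n', ∀ i j, M i j = M' (τ i) (τ j) := by
  obtain ⟨σ, hσ⟩ := h
  let b := Equiv.ofBijective _ (cl_bij M hM)
  let b' := Equiv.ofBijective _ (cl_bij M' hM')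
  refine ⟨(b.trans σ).trans b'.symm, fun i j => ?_⟩
  set τ := (b.trans σ).trans b'.symm with hτ
  have hb : ∀ i, σ (cl (fun i j => M i j) i) = cl (fun i j => M' i j) (τ i) := fun i => by
    show σ (b i) = b' (b'.symm (σ (b i)))
    rw [Equiv.apply_symm_apply]
  by_cases hij : i = j
  · subst hij
    rw [M.diagonal, M'.diagonal]
  · have hτij : τ i ≠ τ j := fun h => hij (τ.injective h)
    have key : ∀ e : ℕ, (M i j ≠ 0 ∧ ¬ p ^ e ∣ M i j / 2) ↔
        (M' (τ i) (τ j) ≠ 0 ∧ ¬ p ^ e ∣ M' (τ i) (τ j) / 2) := by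
      intro e
      have h1 := hσ e (cl _ i) (cl _ j)
      rw [hb, hb] at h1
      constructor
      · rintro ⟨h2, h3⟩
        obtain ⟨-, s, t, hs, ht, h4, h5⟩ := h1.mp
          ⟨fun h => hij ((cl_bij M hM).1 h), i, j, rfl, rfl, h2, h3⟩
        rw [(cl_bij M' hM').1 hs, (cl_bij M' hM').1 ht] at h4 h5
        exact ⟨h4, h5⟩
      · rintro ⟨h2, h3⟩
        obtain ⟨-, s, t, hs, ht, h4, h5⟩ := h1.mpr
          ⟨fun h => hτij ((cl_bij M' hM').1 h), τ i, τ j, rfl, rfl, h2, h3⟩
        rw [(cl_bij M hM).1 hs, (cl_bij M hM).1 ht] at h4 h5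
        exact ⟨h4, h5⟩
    obtain ⟨a, ha⟩ := hM i j hij
    obtain ⟨a', ha'⟩ := hM' _ _ hτij
    have e1 : M i j / 2 = a := by omega
    have e2 : M' (τ i) (τ j) / 2 = a' := by omega
    rw [e1, e2] at key
    have big : ∀ k : ℕ, k ≠ 0 → ¬ p ^ k ∣ k := fun k hk h => by
      have h1 := Nat.le_of_dvd (Nat.pos_of_ne_zero hk) h
      have h2 : k < p ^ k := Nat.lt_pow_self hp.one_lt
      omega
    by_cases h0 : M i j = 0
    · rw [h0]
      by_contra h0'
      have h2 := (key a').mpr ⟨fun h => h0' h.symm, big a' (by omega)⟩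
      exact h2.1 h0
    · have h0' : M' (τ i) (τ j) ≠ 0 := ((key a).mp ⟨h0, big a (by omega)⟩).1
      refine hL i j _ _ hij hτij h0 h0' ?_
      have hdvd : ∀ e, p ^ e ∣ a ↔ p ^ e ∣ a' := by
        intro e
        have := key e
        simp only [ne_eq, h0, h0', not_false_eq_true, true_and] at this
        exact not_iff_not.mp this
      have hv : padicValNat p a = padicValNat p a' := by
        have : Fact p.Prime := ⟨hp⟩
        have ha0 : a ≠ 0 := by omega
        have ha0' : a' ≠ 0 := by omega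
        apply le_antisymm
        · exact (padicValNat_dvd_iff_le ha0').mp ((hdvd _).mp pow_padicValNat_dvd)
        · exact (padicValNat_dvd_iff_le ha0).mp ((hdvd _).mpr pow_padicValNat_dvd)
      have : Fact p.Prime := ⟨hp⟩
      have ea : M i j = 2 * a := by omega
      have ea' : M' (τ i) (τ j) = 2 * a' := by omega
      rw [ea, ea', padicValNat.mul (by norm_num) (by omega),
        padicValNat.mul (by norm_num) (by omega), hv]

end Pool.Agent.H354.ISO
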