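import Pool.Agent.H354.ISO.Fin
import Pool.Agent.H354.ISO.Defs2

set_option autoImplicit false

/-! Project ISO (helper354): the profinite version from the parts. -/

namespace Pool.Agent.H354.ISO

lemma Transfer.nat' {A B : Type} [Group A] [Group B] (τ : Transfer A B) (Q Q' : Type) [Group Q]
    [Finite Q] [Group Q'] [Finite Q'] (h : Q →* Q') (f : B →* Q) :
    τ.ba Q' (h.comp f) = h.comp (τ.ba Q f) := by
  have h1 := τ.nat Q Q' h (τ.ba Q f)
  rw [τ.go_ba] at h1
  rw [← h1, τ.ba_go]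

/-- the Heisenberg group over a finite ring is finite -/
instance (R : Type) [Finite R] : Finite (Heis R) :=
  Finite.of_injective (fun g : Heis R => (g.x, g.y, g.z)) (fun a b h => by
    have h1 := congrArg Prod.fst h
    have h2 := congrArg (fun t => t.2.1) h
    have h3 := congrArg (fun t => t.2.2) h
    exact Heis.ext h1 h2 h3)

lemma transport2 (hH : S_HOM) (hL : S_LIFT) (p e : ℕ) [Fact p.Prime] (he : e ≠ 0) (n n' : ℕ)
    (M : CoxeterMatrix (Fin n)) (M' : CoxeterMatrix (Fin n'))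
    (τ : Transfer (Artin (fun i j => M i j)) (Artin (fun i j => M' i j)))
    (T : (OddClass (fun i j => M i j) → ZMod p) ≃ₗ[ZMod p]
      (OddClass (fun i j => M' i j) → ZMod p))
    (hT : ∀ (α : OddClass (fun i j => M i j) → ZMod p)
      (f : Artin (fun i j => M i j) →* Multiplicative (ZMod p)),
      (∀ s, f (PresentedGroup.of s) = Multiplicative.ofAdd (α (cl _ s))) ↔
      (∀ s', τ.go _ f (PresentedGroup.of s') = Multiplicative.ofAdd (T α (cl _ s'))))
    (α β : OddClass (fun i j => M i j) → ZMod p) :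
    perp (ValEdge (fun i j => M i j) (p ^ e)) α β ↔
      perp (ValEdge (fun i j => M' i j) (p ^ e)) (T α) (T β) := by
  rw [char hH hL p e he n M, char hH hL p e he n' M']
  have hne : NeZero (p ^ e) := ⟨pow_ne_zero e (Fact.out : p.Prime).ne_zero⟩
  set c := ZMod.castHom (dvd_pow_self p he) (ZMod p) with hc
  constructor
  · rintro ⟨Φ, h1, h2⟩
    refine ⟨τ.go (Heis (ZMod (p ^ e))) Φ, ?_, ?_⟩
    · have h3 := (hT α ((hx c).comp Φ)).mp h1
      rw [τ.nat] at h3
      exact h3
    · have h3 := (hT β ((hy c).comp Φ)).mp h2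
      rw [τ.nat] at h3
      exact h3
  · rintro ⟨Φ', h1, h2⟩
    refine ⟨τ.ba (Heis (ZMod (p ^ e))) Φ', ?_, ?_⟩
    · refine (hT α ((hx c).comp (τ.ba (Heis (ZMod (p ^ e))) Φ'))).mpr ?_
      rw [τ.nat, τ.go_ba]
      exact h1
    · refine (hT β ((hy c).comp (τ.ba (Heis (ZMod (p ^ e))) Φ'))).mpr ?_
      rw [τ.nat, τ.go_ba]
      exact h2

/-- the final theorem of the profinite version from the parts -/
theorem fin2 (h1 : S_REC1) (hR : S_REC1 → S_REC) (hH : S_HOM) (hL : S_LIFT) (hT : S_TRANSP)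
    (hP : S_PROF) (n n' : ℕ) (M : CoxeterMatrix (Fin n)) (M' : CoxeterMatrix (Fin n'))
    (h : Nonempty (ProfiniteGrp.ProfiniteCompletion.completion
        (GrpCat.of (Artin (fun i j => M i j))) ≃ₜ*
      ProfiniteGrp.ProfiniteCompletion.completion (GrpCat.of (Artin (fun i j => M' i j)))))
    (p : ℕ) (hp : p.Prime) :
    ∃ σ : OddClass (fun i j => M i j) ≃ OddClass (fun i j => M' i j), ∀ (e : ℕ) C D,
      ValEdge (fun i j => M i j) (p ^ e) C D ↔
        ValEdge (fun i j => M' i j) (p ^ e) (σ C) (σ D) := by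
  classical
  obtain ⟨τ⟩ := hP _ _ h
  have : Fact p.Prime := ⟨hp⟩
  obtain ⟨T, hT'⟩ := hT p n n' M M' τ
  have f1 : Finite (OddClass (fun i j => M i j)) :=
    Finite.of_surjective (cl _) Quot.mk_surjective
  have f2 : Finite (OddClass (fun i j => M' i j)) :=
    Finite.of_surjective (cl _) Quot.mk_surjective
  have := Fintype.ofFinite (OddClass (fun i j => M i j))
  have := Fintype.ofFinite (OddClass (fun i j => M' i j))
  obtain ⟨N, hN, hN'⟩ : ∃ N : ℕ, (∀ i j, M i j ≤ N) ∧ ∀ i j, M' i j ≤ N := by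
    refine ⟨(∑ i, ∑ j, M i j) + ∑ i, ∑ j, M' i j, fun i j => ?_, fun i j => ?_⟩
    · have h1 : M i j ≤ ∑ j, M i j := Finset.single_le_sum (f := fun j => M i j)
        (fun _ _ => Nat.zero_le _) (Finset.mem_univ j)
      have h2 : ∑ j, M i j ≤ ∑ i, ∑ j, M i j := Finset.single_le_sum
        (f := fun i => ∑ j, M i j) (fun _ _ => Nat.zero_le _) (Finset.mem_univ i)
      omega
    · have h1 : M' i j ≤ ∑ j, M' i j := Finset.single_le_sum (f := fun j => M' i j)
        (fun _ _ => Nat.zero_le _) (Finset.mem_univ j)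
      have h2 : ∑ j, M' i j ≤ ∑ i, ∑ j, M' i j := Finset.single_le_sum
        (f := fun i => ∑ j, M' i j) (fun _ _ => Nat.zero_le _) (Finset.mem_univ i)
      omega
  have hsym : ∀ (k : ℕ) (K : CoxeterMatrix (Fin k)) (q : ℕ)
      (u v : OddClass (fun i j => K i j)),
      ValEdge (fun i j => K i j) q u v → ValEdge (fun i j => K i j) q v u := by
    rintro k K q u v ⟨h1, s, t, h2, h3, h4, h5⟩
    refine ⟨h1.symm, t, s, h3, h2, ?_, ?_⟩
    · show K t s ≠ 0
      rw [K.symmetric]; exact h4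
    · show ¬ q ∣ K t s / 2
      rw [K.symmetric]; exact h5
  obtain ⟨σ, hσ⟩ := hR h1 (ZMod p) (OddClass (fun i j => M i j))
    (OddClass (fun i j => M' i j)) (Fin (N + 1))
    (fun j => ValEdge (fun i j => M i j) (p ^ (j.val + 1)))
    (fun j => ValEdge (fun i j => M' i j) (p ^ (j.val + 1)))
    (fun j u v => hsym n M _ u v) (fun j u hu => hu.1 rfl)
    (fun j u v => hsym n' M' _ u v) (fun j u hu => hu.1 rfl) T
    (fun j α β => transport2 hH hL p (j.val + 1) (Nat.succ_ne_zero _) n n' M M' τ T hT' α β)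
  refine ⟨σ, fun e C D => ?_⟩
  rcases Nat.eq_zero_or_pos e with rfl | he
  · constructor
    · rintro ⟨-, s, t, -, -, -, h5⟩
      exact absurd (by rw [pow_zero]; exact one_dvd _) h5
    · rintro ⟨-, s, t, -, -, -, h5⟩
      exact absurd (by rw [pow_zero]; exact one_dvd _) h5
  · rcases Nat.lt_or_ge e (N + 1) with h3 | h3
    · have := hσ ⟨e - 1, by omega⟩ C D
      simpa only [Nat.sub_add_cancel he] using this
    · rw [val_large _ p hp N hN e h3, val_large _ p hp N hN' e h3]
      exact hσ ⟨N, by omega⟩ C D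

end Pool.Agent.H354.ISO
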